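import Pool.Agent.helper84.AN.Transfer

/-!
# MP_263b92_ag, Q1: the generic curve of every component of the p-rank 0 stratum has a-number 1

`k` is an algebraically closed field of characteristic `p` and `F₀ / k` the function field of a curve `C₀` of genus `g ≥ 2` and
`p`-rank 0. Definitions: `Pool/Agent/helper84/AN/Def.lean`.

(1) If `C₀` is generic, that is, has no proper generisation in `M_g^0` (`IsGeneric`), then its `a`-number is 1. This is Q1: let `η` be
the generic point of a component `Γ` of `M_g^0`, `k` an algebraic closure of its residue field and `C₀` the curve over `k`
represented by `Spec k → Γ`. Let a curve over `k((t))` have good reduction `C₀` and a geometric generic fibre `C'` of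
`p`-rank 0. The morphism `Spec k[[t]] → M_g` has its image in the closed set `M_g^0`, the closed point goes to `η`, so the generic point goes to a
generisation of `η` in `M_g^0`, that is to `η`. So `C'` and `C₀` lie over the same point of `M_g`, and `C'` is the base
change of `C₀` by an embedding of `k` into the algebraic closure of `k((t))` extending that of the residue field of `η`. (If the
genus of `E / k((t))` is larger than that of `E'` replace `t` by a `p^n`-th root of `t`: the constant field extension of `E` has again a
discrete valuation ring with residue field `F₀`, and the genus `g` for large `n`.)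

(2) In every case `C₀` is the reduction of a curve over `k((t))` with good reduction, whose geometric generic fibre has genus `g`,
`p`-rank 0 and `a`-number 1. (For `k` the base field: the curves with `a = 1` are dense in `M_g^0`.)
-/

namespace Pool.Agent.Results.MP_263b92_ag.GenericANumber

open Pool.Agent.helper84.GC

theorem result (p : ℕ) [Fact p.Prime] (k : Type) [Field k] [IsAlgClosed k] [CharP k p]
    (F₀ : Type) [Field F₀] [Algebra k F₀] (g : ℕ) (hg : 2 ≤ g) (hF₀ : IsFF k F₀)
    (hgenus : IsGenus k F₀ g) (hrank : PRankZero p k F₀) :
    (IsGeneric p k F₀ g → aNumber k F₀ = 1) ∧
    ∃ (E : Type) (_ : Field E) (_ : Algebra (LaurentSeries k) E) (E' : Type) (_ : Field E')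
      (_ : Algebra (AlgebraicClosure (LaurentSeries k)) E') (j : E →+* E'),
      IsFamily p k F₀ g E E' j ∧ aNumber (AlgebraicClosure (LaurentSeries k)) E' = 1 :=
  main p k F₀ g hg hF₀ hgenus hrank

end Pool.Agent.Results.MP_263b92_ag.GenericANumber
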